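import Pool.Agent.H97R2.LPB.Props

/-! Assembly of the archimedean bound `S_main` (task MAIN_b, helper88). -/

open Polynomial Filter Topology MeasureTheory Pool.Agent.H337R2 Pool.Agent.LP

namespace Pool.Agent.LPB

noncomputable section

namespace H88

theorem phiU_le (h8 : S_even) (h9 : S_cert1) (h10 : S_cert2) (h11 : S_cert3) (v : ℝ)
    (hv : |v| ≤ 12) : Phi v + 2 * Ux v ≤ -(665 / 100) := by
  have key : ∀ u : ℝ, 0 ≤ u → u ≤ 12 → Phi u + 2 * Ux u ≤ -(665 / 100) := by
    intro u h0 h1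
    rcases le_total u 2 with h | h
    · exact h9 u h0 h
    · rcases le_total u (387 / 100) with h' | h'
      · exact h10 u h h'
      · exact h11 u h' h1
  rcases le_total 0 v with h | h
  · exact key v h (by rwa [abs_of_nonneg h] at hv)
  · rw [← h8 v]
    exact key (-v) (by linarith) (by rwa [abs_of_nonpos h] at hv)

theorem phiU_tail (h8 : S_even) (h12 : S_tail) (v : ℝ) (hv : 12 ≤ |v|) :
    Phi v + 2 * Ux v ≤ -(665 / 100) - |v| / 2 := by
  rcases le_total 0 v with h | h
  · rw [abs_of_nonneg h] at hv ⊢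
    exact h12 v hv
  · rw [← h8 v, abs_of_nonpos h]
    rw [abs_of_nonpos h] at hv
    exact h12 (-v) hv

/-- the exponent bound -/
theorem expo (h8 : S_even) (h9 : S_cert1) (h10 : S_cert2) (h11 : S_cert3) (h12 : S_tail)
    (C : ℝ) (hC : 0 ≤ C) (n : ℕ) (hn : 13 ≤ n) (hnC : 2 * C ≤ n) (y : ℝ) :
    (n : ℝ) * (Phi (y / n) + 2 * Ux (y / n)) + C * Real.log (n + |y|) ≤
      -(665 / 100) * n + 2 * C * Real.log n := by
  have hn0 : (0 : ℝ) < n := by
    have : (0 : ℝ) < ((13 : ℕ) : ℝ) := by norm_num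
    exact lt_of_lt_of_le this (by exact_mod_cast hn)
  have hn13 : (13 : ℝ) ≤ n := by exact_mod_cast hn
  have hlogn : 0 ≤ Real.log n := Real.log_nonneg (by linarith)
  rcases le_total |y / n| 12 with h | h
  · have h1 := phiU_le h8 h9 h10 h11 (y / n) h
    have hy : |y| ≤ 12 * n := by
      rw [abs_div, abs_of_pos hn0, div_le_iff₀ hn0] at h
      exact h
    have h2 : Real.log (n + |y|) ≤ 2 * Real.log n := by
      rw [← Real.log_rpow hn0]
      apply Real.log_le_log (by positivity)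
      have : (n : ℝ) ^ (2 : ℝ) = n * n := by
        rw [show (2 : ℝ) = ((2 : ℕ) : ℝ) by norm_num, Real.rpow_natCast]; ring
      rw [this]
      nlinarith
    have h3 := mul_le_mul_of_nonneg_left h1 hn0.le
    have h4 := mul_le_mul_of_nonneg_left h2 hC
    linarith
  · have h1 := phiU_tail h8 h12 (y / n) h
    have h3 := mul_le_mul_of_nonneg_left h1 hn0.le
    have e : (n : ℝ) * |y / n| = |y| := by
      rw [abs_div, abs_of_pos hn0]; field_simp
    have h2 : Real.log (n + |y|) ≤ Real.log n + |y| / n := by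
      have : (n : ℝ) + |y| = n * (1 + |y| / n) := by field_simp
      rw [this, Real.log_mul (by positivity) (by positivity)]
      have := Real.log_le_sub_one_of_pos (show (0 : ℝ) < 1 + |y| / n by positivity)
      linarith
    have h4 := mul_le_mul_of_nonneg_left h2 hC
    have h5 : C * (|y| / n) ≤ |y| / 2 := by
      rw [mul_div_assoc', div_le_div_iff₀ hn0 (by norm_num)]
      nlinarith [abs_nonneg y]
    have h6 : 0 ≤ C * Real.log n := mul_nonneg hC hlogn
    nlinarith

/-- the integral of one Lagrange polynomial -/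
theorem lag_int (h2 : S_cont) (h8 : S_even) (h9 : S_cert1) (h10 : S_cert2)
    (h11 : S_cert3) (h12 : S_tail) (C1 C2 : ℝ) (hC1 : 0 < C1) (hC2 : 0 < C2)
    (hp : ∀ n : ℕ, 2 ≤ n → ∀ m : ℕ, 4 * n - 1 ≤ m → m ≤ 4 * n + 1 → ∀ i < m, ∀ y : ℝ,
      ∏ j ∈ (Finset.range m).erase i, |y - xn n j| ≤
        Real.exp (n * Ux (y / n) + 4 * n * Real.log n + C1 * Real.log (n + |y|)))
    (hw : ∀ n : ℕ, 2 ≤ n → ∀ y : ℝ,
      ww n (5 * n) y ≤ Real.exp (n * Phi (y / n) - 3 * n * Real.log n + C2 * Real.log (n + |y|)))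
    (n : ℕ) (hn : 13 ≤ n) (hnC : 2 * (2 * C1 + C2 + 2) ≤ n) (m : ℕ) (hm1 : 4 * n - 1 ≤ m)
    (hm2 : m ≤ 4 * n + 1) (i : ℕ) (hi : i < m) :
    ∫ y : ℝ, (∏ j ∈ (Finset.range m).erase i, (y - xn n j)) ^ 2 * ww n (5 * n) y ≤
      Real.exp (-(665 / 100) * n + 5 * n * Real.log n + 2 * (2 * C1 + C2 + 2) * Real.log n) *
        Real.pi := by
  have hn0 : (0 : ℝ) < n := by
    have : (0 : ℝ) < ((13 : ℕ) : ℝ) := by norm_num
    exact lt_of_lt_of_le this (by exact_mod_cast hn)
  have hn13 : (13 : ℝ) ≤ n := by exact_mod_cast hn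
  set E := -(665 / 100) * (n : ℝ) + 5 * n * Real.log n + 2 * (2 * C1 + C2 + 2) * Real.log n with hE
  have hwpos : ∀ y, 0 < ww n (5 * n) y := (h2 n (5 * n)).2
  have hpt : ∀ y : ℝ, (∏ j ∈ (Finset.range m).erase i, (y - xn n j)) ^ 2 * ww n (5 * n) y ≤
      Real.exp E * (1 + y ^ 2)⁻¹ := by
    intro y
    have a1 := hp n (by omega) m hm1 hm2 i hi y
    have a2 := hw n (by omega) y
    have a3 := expo h8 h9 h10 h11 h12 (2 * C1 + C2 + 2) (by positivity) n hn hnC y
    have hl : (0 : ℝ) < n + |y| := by positivity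
    have a4 : 1 + y ^ 2 ≤ Real.exp (2 * Real.log (n + |y|)) := by
      have : Real.exp (2 * Real.log (n + |y|)) = (n + |y|) ^ 2 := by
        rw [mul_comm, Real.exp_mul, Real.exp_log hl]
        norm_num [Real.rpow_ofNat]
      rw [this]
      nlinarith [abs_nonneg y, sq_abs y]
    have a5 : (∏ j ∈ (Finset.range m).erase i, (y - xn n j)) ^ 2 =
        (∏ j ∈ (Finset.range m).erase i, |y - xn n j|) ^ 2 := by
      rw [← Finset.abs_prod, sq_abs]
    have hP0 : 0 ≤ ∏ j ∈ (Finset.range m).erase i, |y - xn n j| :=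
      Finset.prod_nonneg fun _ _ => abs_nonneg _
    rw [← div_eq_mul_inv, le_div_iff₀ (by positivity), a5]
    calc (∏ j ∈ (Finset.range m).erase i, |y - xn n j|) ^ 2 * ww n (5 * n) y * (1 + y ^ 2)
        ≤ (Real.exp (n * Ux (y / n) + 4 * n * Real.log n + C1 * Real.log (n + |y|))) ^ 2 *
          Real.exp (n * Phi (y / n) - 3 * n * Real.log n + C2 * Real.log (n + |y|)) *
          Real.exp (2 * Real.log (n + |y|)) := by
          have := (hwpos y).le
          gcongr
      _ = Real.exp ((n : ℝ) * (Phi (y / n) + 2 * Ux (y / n)) +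
            (2 * C1 + C2 + 2) * Real.log (n + |y|) + 5 * n * Real.log n) := by
          rw [← Real.exp_nat_mul, ← Real.exp_add, ← Real.exp_add]
          congr 1
          push_cast
          ring
      _ ≤ Real.exp E := by
          apply Real.exp_le_exp.2
          rw [hE]
          linarith
  have hint : Integrable (fun y : ℝ => Real.exp E * (1 + y ^ 2)⁻¹) :=
    integrable_inv_one_add_sq.const_mul _
  have hval : ∫ y : ℝ, Real.exp E * (1 + y ^ 2)⁻¹ = Real.exp E * Real.pi := by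
    rw [integral_const_mul, integral_univ_inv_one_add_sq]
  rw [← hval]
  refine integral_mono_of_nonneg (Eventually.of_forall fun y => ?_) hint
    (Eventually.of_forall hpt)
  exact mul_nonneg (sq_nonneg _) (hwpos y).le

theorem final_num (C C3 : ℝ) (hC : 0 ≤ C) (hC3 : 0 ≤ C3) (n m L : ℝ) (hn : 13 ≤ n)
    (_hm1 : 4 * n - 1 ≤ m) (hm2 : m ≤ 4 * n + 1) (hL : 2 ≤ L)
    (hbig : (50 + 20 * C + C3) * L ≤ 1 / 5 * n) :
    2 * m * L + m * (-(665 / 100) * n + 5 * n * L + 2 * C * L + 2 * L) -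
      (16 * n ^ 2 * L + 21 / 10 * n ^ 2 - C3 * n * L) ≤ 4 * n ^ 2 * L - 28.5 * n ^ 2 := by
  have h1 : m * (5 * n * L - 665 / 100 * n) ≤ (4 * n + 1) * (5 * n * L - 665 / 100 * n) :=
    mul_le_mul_of_nonneg_right hm2 (by nlinarith)
  have h2 : m * ((4 + 2 * C) * L) ≤ (5 * n) * ((4 + 2 * C) * L) :=
    mul_le_mul_of_nonneg_right (by linarith) (by positivity)
  have h3 : n * ((50 + 20 * C + C3) * L) ≤ n * (1 / 5 * n) :=
    mul_le_mul_of_nonneg_left hbig (by linarith)
  have hnL : 0 ≤ n * L := by positivity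
  have hnLC : 0 ≤ C * (n * L) := by positivity
  have h4 : n ≤ n * L := by nlinarith
  nlinarith

end H88

theorem G7_main (h1 : S_int) (h2 : S_cont) (h3 : S_gram) (h4 : S_sep) (h5 : S_pot)
    (h6 : S_weight) (h7 : S_energy) (h8 : S_even) (h9 : S_cert1) (h10 : S_cert2) (h11 : S_cert3)
    (h12 : S_tail) (h13 : S_Q) : S_main := by
  obtain ⟨C1, hC1, hp⟩ := h5
  obtain ⟨C2, hC2, hw⟩ := h6
  obtain ⟨C3, hC3, he⟩ := h7
  set C : ℝ := 2 * C1 + C2 + 2 with hC
  have hC0 : 0 < C := by positivity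
  have ev1 : ∀ᶠ n : ℕ in atTop, 13 ≤ n := eventually_ge_atTop 13
  have ev2 : ∀ᶠ n : ℕ in atTop, 2 * C ≤ n := tendsto_natCast_atTop_atTop.eventually_ge_atTop _
  have ev3 : ∀ᶠ n : ℕ in atTop, (50 + 20 * C + C3) * Real.log n ≤ 1 / 5 * n := by
    have hK : 0 < 50 + 20 * C + C3 := by positivity
    have h := Real.isLittleO_log_id_atTop.bound
      (show (0 : ℝ) < 1 / 5 / (50 + 20 * C + C3) by positivity)
    have h' := tendsto_natCast_atTop_atTop (R := ℝ) |>.eventually h
    filter_upwards [h', eventually_ge_atTop 1] with n hn hn1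
    have hn1' : (1 : ℝ) ≤ n := by exact_mod_cast hn1
    rw [Real.norm_of_nonneg (Real.log_nonneg hn1')] at hn
    simp only [id] at hn
    rw [Real.norm_of_nonneg (by linarith)] at hn
    calc (50 + 20 * C + C3) * Real.log n ≤ (50 + 20 * C + C3) *
          (1 / 5 / (50 + 20 * C + C3) * n) := mul_le_mul_of_nonneg_left hn hK.le
      _ = 1 / 5 * n := by field_simp
  filter_upwards [ev1, ev2, ev3] with n hn hnC hbig
  intro m hm1 hm2
  have hn0 : (0 : ℝ) < n := by
    have : (0 : ℝ) < ((13 : ℕ) : ℝ) := by norm_num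
    exact lt_of_lt_of_le this (by exact_mod_cast hn)
  have hn13 : (13 : ℝ) ≤ n := by exact_mod_cast hn
  have hsep : ∀ i < m, ∀ j < m, i ≠ j → 0 < |xn n i - xn n j| := by
    intro i hi j hj hij
    have := (h4 (n := n) (by omega) i j (by omega) (by omega) hij).1
    linarith
  have hinj : Set.InjOn (xn n) (Finset.range m) := by
    intro i hi j hj hij
    by_contra hne
    have hi' : i < m := by simpa using hi
    have hj' : j < m := by simpa using hj
    have := hsep i hi' j hj' hne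
    rw [hij, sub_self, abs_zero] at this
    exact lt_irrefl _ this
  obtain ⟨q, hq1, hq2⟩ := h3 (ww n (5 * n)) (h2 n (5 * n)).1 (h2 n (5 * n)).2
    (fun q => h1 n (5 * n) (by omega) q) m (xn n) hinj
  refine ⟨q, hq1, ?_⟩
  set V : ℝ := ∏ i ∈ Finset.range m, ∏ j ∈ (Finset.range m).erase i, |xn n i - xn n j| with hV
  have hVi : ∀ i ∈ Finset.range m, ∏ j ∈ (Finset.range m).erase i, |xn n i - xn n j| ≠ 0 := by
    intro i hi
    rw [Finset.prod_ne_zero_iff]
    intro j hj
    rw [Finset.mem_erase, Finset.mem_range] at hj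
    exact (hsep i (Finset.mem_range.1 hi) j hj.2 (Ne.symm hj.1)).ne'
  have hVij : ∀ i ∈ Finset.range m, ∀ j ∈ (Finset.range m).erase i, |xn n i - xn n j| ≠ 0 := by
    intro i hi j hj
    rw [Finset.mem_erase, Finset.mem_range] at hj
    exact (hsep i (Finset.mem_range.1 hi) j hj.2 (Ne.symm hj.1)).ne'
  have hVpos : 0 < V := by
    rw [hV]
    refine Finset.prod_pos fun i hi => Finset.prod_pos fun j hj => ?_
    exact lt_of_le_of_ne (abs_nonneg _) (Ne.symm (hVij i hi j hj))
  have hlogV : Real.log V = ∑ i ∈ Finset.range m, ∑ j ∈ (Finset.range m).erase i,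
      Real.log |xn n i - xn n j| := by
    rw [hV, Real.log_prod hVi]
    exact Finset.sum_congr rfl fun i hi => Real.log_prod (hVij i hi)
  have hen := he n (by omega) m hm1 hm2
  rw [← hlogV] at hen
  set L := Real.log n with hL
  have hL2 : 2 ≤ L := by
    rw [hL, Real.le_log_iff_exp_le hn0]
    have : Real.exp 2 ≤ 13 := by
      have h := Real.exp_one_lt_d9
      have : Real.exp 2 = Real.exp 1 * Real.exp 1 := by rw [← Real.exp_add]; norm_num
      rw [this]
      nlinarith [Real.exp_pos 1]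
    linarith
  set E : ℝ := -(665 / 100) * n + 5 * n * L + 2 * C * L with hE
  -- upper bound for the product of the integrals
  have hlag : ∏ i ∈ Finset.range m, ∫ y : ℝ, (∏ j ∈ (Finset.range m).erase i, (y - xn n j)) ^ 2 *
      ww n (5 * n) y ≤ Real.exp (m * (E + 2 * L)) := by
    have hpi : Real.pi ≤ Real.exp (2 * L) := by
      have h3 : (1 : ℝ) ≤ L := by linarith
      have h5 : Real.pi ≤ 4 := Real.pi_le_four
      have h6 : (4 : ℝ) ≤ Real.exp (2 * L) := by
        have := Real.add_one_le_exp (2 * L)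
        linarith
      linarith
    calc _ ≤ ∏ _i ∈ Finset.range m, Real.exp (E + 2 * L) := by
          refine Finset.prod_le_prod (fun i _ => ?_) (fun i hi => ?_)
          · exact integral_nonneg fun y => mul_nonneg (sq_nonneg _) ((h2 n (5 * n)).2 y).le
          · refine (H88.lag_int h2 h8 h9 h10 h11 h12 C1 C2 hC1 hC2 hp hw n hn hnC m hm1 hm2 i
              (Finset.mem_range.1 hi)).trans ?_
            rw [Real.exp_add E (2 * L)]
            exact mul_le_mul_of_nonneg_left hpi (Real.exp_pos E).le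
      _ = Real.exp (m * (E + 2 * L)) := by
          rw [Finset.prod_const, Finset.card_range, ← Real.exp_nat_mul]
  have hfac : (m.factorial : ℝ) ≤ Real.exp (2 * m * L) := by
    have h1 : (m.factorial : ℝ) ≤ (m : ℝ) ^ m := by exact_mod_cast Nat.factorial_le_pow m
    have hm5 : (m : ℝ) ≤ Real.exp (2 * L) := by
      have : Real.exp (2 * L) = n ^ 2 := by
        rw [mul_comm, Real.exp_mul, hL, Real.exp_log hn0]
        norm_num [Real.rpow_ofNat]
      rw [this]
      have : (m : ℝ) ≤ 4 * n + 1 := by exact_mod_cast hm2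
      nlinarith
    calc (m.factorial : ℝ) ≤ (m : ℝ) ^ m := h1
      _ ≤ (Real.exp (2 * L)) ^ m := by gcongr
      _ = Real.exp (2 * m * L) := by
          rw [← Real.exp_nat_mul]; congr 1; ring
  have hVge : Real.exp (16 * (n : ℝ) ^ 2 * L + 21 / 10 * (n : ℝ) ^ 2 - C3 * n * L) ≤ V := by
    rw [← Real.le_log_iff_exp_le hVpos]
    have h21 : 21 / 10 * (n : ℝ) ^ 2 ≤ Qx * (n : ℝ) ^ 2 := by
      have h13' : 21 / 10 ≤ Qx := h13
      gcongr
    linarith
  have hnum := H88.final_num C C3 hC0.le hC3.le n m L hn13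
    (by
      have : (4 * (n : ℝ)) ≤ m + 1 := by
        have : 4 * n ≤ m + 1 := by omega
        exact_mod_cast this
      linarith)
    (by exact_mod_cast hm2) hL2 hbig
  have hprod : (∏ i ∈ Finset.range m, ∫ y : ℝ, (q i).eval y ^ 2 * ww n (5 * n) y) * V ≤
      Real.exp (2 * m * L) * Real.exp (m * (E + 2 * L)) := by
    refine hq2.trans ?_
    have : 0 ≤ ∏ i ∈ Finset.range m, ∫ y : ℝ, (∏ j ∈ (Finset.range m).erase i, (y - xn n j)) ^ 2 *
        ww n (5 * n) y := Finset.prod_nonneg fun i _ =>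
          integral_nonneg fun y => mul_nonneg (sq_nonneg _) ((h2 n (5 * n)).2 y).le
    gcongr
  have hPle : ∏ i ∈ Finset.range m, ∫ y : ℝ, (q i).eval y ^ 2 * ww n (5 * n) y ≤
      Real.exp (2 * m * L) * Real.exp (m * (E + 2 * L)) / V := by
    rwa [le_div_iff₀ hVpos]
  refine hPle.trans ?_
  rw [div_le_iff₀ hVpos]
  calc Real.exp (2 * m * L) * Real.exp (m * (E + 2 * L)) ≤
        Real.exp (4 * (n : ℝ) ^ 2 * L - 28.5 * (n : ℝ) ^ 2) *
          Real.exp (16 * (n : ℝ) ^ 2 * L + 21 / 10 * (n : ℝ) ^ 2 - C3 * n * L) := by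
        rw [← Real.exp_add, ← Real.exp_add]
        apply Real.exp_le_exp.2
        have : 2 * (m : ℝ) * L + m * (E + 2 * L) = 2 * m * L + m * (-(665 / 100) * n +
            5 * n * L + 2 * C * L + 2 * L) := by rw [hE]
        rw [this]
        linarith
    _ ≤ _ := mul_le_mul_of_nonneg_left hVge (Real.exp_pos _).le

end

end Pool.Agent.LPB
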